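import Pool.Agent.H728R2.TwoPoint

/-!
# A non-reflexive operator quasi-similar to a positive compact diagonal operator
-/

set_option autoImplicit false
set_option linter.unusedSectionVars false
open scoped InnerProductSpace Topology
open Filter

namespace Pool.Agent.H728R2

/-- the eigenvalues -/
noncomputable def av (i : ℕ) : ℂ := if i = 0 then 0 else (((1 / 100 : ℝ) ^ i : ℝ) : ℂ)
/-- auxiliary weights -/
noncomputable def dv (i : ℕ) : ℂ := (((1 / 100 : ℝ) ^ i : ℝ) : ℂ)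

theorem av_zero : av 0 = 0 := by simp [av]
theorem av_pos {i : ℕ} (hi : 0 < i) : av i = dv i := by
  simp only [av, dv, hi.ne', if_false]
theorem dv_ne (i : ℕ) : dv i ≠ 0 := by
  unfold dv
  exact_mod_cast (pow_pos (by norm_num : (0:ℝ) < 1 / 100) i).ne'
theorem dv_norm (i : ℕ) : ‖dv i‖ = (1 / 100) ^ i := by
  unfold dv
  rw [Complex.norm_real, Real.norm_eq_abs, abs_of_nonneg (by positivity)]
theorem av_norm_le (i : ℕ) : ‖av i‖ ≤ (1 / 100) ^ i := by
  rcases Nat.eq_zero_or_pos i with rfl | hi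
  · simp [av_zero]
  · rw [av_pos hi, dv_norm]
theorem av_conj (i : ℕ) : (starRingEnd ℂ) (av i) = av i := by
  unfold av; split_ifs
  · simp
  · exact Complex.conj_ofReal _

variable {H : Type*} [NormedAddCommGroup H] [InnerProductSpace ℂ H] [CompleteSpace H]

theorem summable_of (c : ℕ → ℂ) (hc : ∀ i, ‖c i‖ ≤ (1 / 100) ^ i) (g f : ℕ → H)
    (hg : ∀ i, ‖g i‖ ≤ 3 * 6 ^ i) (hf : ∀ i, ‖f i‖ ≤ 8 * 6 ^ i) :
    Summable fun i => ‖c i‖ * ‖g i‖ * ‖f i‖ := by
  have hs : Summable fun i : ℕ => 24 * (36 / 100 : ℝ) ^ i :=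
    (summable_geometric_of_lt_one (by norm_num) (by norm_num)).mul_left _
  refine Summable.of_nonneg_of_le (fun i => by positivity) (fun i => ?_) hs
  calc ‖c i‖ * ‖g i‖ * ‖f i‖ ≤ (1 / 100) ^ i * (3 * 6 ^ i) * (8 * 6 ^ i) := by
        gcongr
        · exact hc i
        · exact hg i
        · exact hf i
    _ = 24 * (36 / 100 : ℝ) ^ i := by
        have : (36 / 100 : ℝ) = (1 / 100) * 6 * 6 := by norm_num
        rw [this, mul_pow, mul_pow]; ring

theorem b_le (b : HilbertBasis ℕ ℂ H) (c : ℝ) (hc : 1 ≤ c) (i : ℕ) : ‖b i‖ ≤ c * 6 ^ i := by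
  rw [b_norm]
  have h3 : (1:ℝ) ≤ 6 ^ i := one_le_pow₀ (by norm_num)
  nlinarith

theorem mul_le' {c d : ℕ → ℂ} (hc : ∀ i, ‖c i‖ ≤ (1 / 100) ^ i) (hd : ∀ i, ‖d i‖ ≤ (1 / 100) ^ i)
    (i : ℕ) : ‖c i * d i‖ ≤ (1 / 100) ^ i := by
  rw [norm_mul]
  have h1 : (1 / 100 : ℝ) ^ i ≤ 1 := pow_le_one₀ (by norm_num) (by norm_num)
  calc ‖c i‖ * ‖d i‖ ≤ (1 / 100) ^ i * 1 :=
        mul_le_mul (hc i) ((hd i).trans h1) (norm_nonneg _) (by positivity)
    _ = _ := mul_one _

/-- the operator `T` -/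
noncomputable def opT (b : HilbertBasis ℕ ℂ H) : H →L[ℂ] H := nucl av (gv b) (fv b)
/-- the normal operator `N` -/
noncomputable def opN (b : HilbertBasis ℕ ℂ H) : H →L[ℂ] H := nucl av b b
/-- intertwiner `X T = N X` -/
noncomputable def opX (b : HilbertBasis ℕ ℂ H) : H →L[ℂ] H := nucl dv (gv b) b
/-- intertwiner `T Y = Y N` -/
noncomputable def opY (b : HilbertBasis ℕ ℂ H) : H →L[ℂ] H := nucl dv b (fv b)

theorem sT (b : HilbertBasis ℕ ℂ H) : Summable fun i => ‖av i‖ * ‖gv b i‖ * ‖fv b i‖ :=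
  summable_of _ av_norm_le _ _ (gv_norm b) (fv_norm b)
theorem sN (b : HilbertBasis ℕ ℂ H) : Summable fun i => ‖av i‖ * ‖b i‖ * ‖b i‖ :=
  summable_of _ av_norm_le _ _ (b_le b 3 (by norm_num)) (b_le b 8 (by norm_num))
theorem sX (b : HilbertBasis ℕ ℂ H) : Summable fun i => ‖dv i‖ * ‖gv b i‖ * ‖b i‖ :=
  summable_of _ (fun i => (dv_norm i).le) _ _ (gv_norm b) (b_le b 8 (by norm_num))
theorem sY (b : HilbertBasis ℕ ℂ H) : Summable fun i => ‖dv i‖ * ‖b i‖ * ‖fv b i‖ :=
  summable_of _ (fun i => (dv_norm i).le) _ _ (b_le b 3 (by norm_num)) (fv_norm b)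
theorem sX' (b : HilbertBasis ℕ ℂ H) : Summable fun i => ‖av i * dv i‖ * ‖gv b i‖ * ‖b i‖ :=
  summable_of (fun i => av i * dv i) (mul_le' av_norm_le (fun i => (dv_norm i).le)) _ _ (gv_norm b)
    (b_le b 8 (by norm_num))
theorem sY' (b : HilbertBasis ℕ ℂ H) : Summable fun i => ‖av i * dv i‖ * ‖b i‖ * ‖fv b i‖ :=
  summable_of (fun i => av i * dv i) (mul_le' av_norm_le (fun i => (dv_norm i).le)) _ _
    (b_le b 3 (by norm_num)) (fv_norm b)

theorem X_comp_T (b : HilbertBasis ℕ ℂ H) : (opX b).comp (opT b) = (opN b).comp (opX b) := by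
  unfold opX opT opN
  rw [nucl_comp (e := fun i => av i * dv i) (sT b) (sX b) (sX' b) (biorth b) (fun i => mul_comm _ _),
    nucl_comp (e := fun i => av i * dv i) (sX b) (sN b) (sX' b) (b_inner b) (fun i => rfl)]

theorem T_comp_Y (b : HilbertBasis ℕ ℂ H) : (opT b).comp (opY b) = (opY b).comp (opN b) := by
  unfold opY opT opN
  rw [nucl_comp (e := fun i => av i * dv i) (sY b) (sT b) (sY' b) (biorth b) (fun i => rfl),
    nucl_comp (e := fun i => av i * dv i) (sN b) (sY b) (sY' b) (b_inner b) (fun i => mul_comm _ _)]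

theorem eq_zero_of_b (b : HilbertBasis ℕ ℂ H) (x : H) (h : ∀ i, ⟪b i, x⟫_ℂ = 0) : x = 0 := by
  apply b.repr.injective
  ext i
  rw [b.repr_apply_apply, h i]
  simp

theorem eq_zero_of_g (b : HilbertBasis ℕ ℂ H) (x : H) (h : ∀ i, ⟪gv b i, x⟫_ℂ = 0) : x = 0 := by
  have ho : ∀ n, ⟪b (2 * n + 1), x⟫_ℂ = 0 := by
    intro n
    have := h (2 * n + 1)
    rw [gv_inner, v_odd] at this
    simpa using this
  apply eq_zero_of_b b
  intro i
  rcases three_cases i with rfl | ⟨n, rfl⟩ | ⟨n, rfl⟩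
  · have := h 0
    rw [gv_inner, v_zero] at this
    simpa using this
  · exact ho n
  · have := h (2 * n + 2)
    have a1 : 2 * n + 2 - 1 = 2 * n + 1 := by omega
    have a2 : 2 * n + 2 + 1 = 2 * (n + 1) + 1 := by ring
    rw [gv_inner, a1, a2, ho, ho] at this
    simpa using this

theorem eq_zero_of_f (b : HilbertBasis ℕ ℂ H) (x : H) (h : ∀ i, ⟪x, fv b i⟫_ℂ = 0) : x = 0 := by
  have he : ∀ n, ⟪x, b (2 * n)⟫_ℂ = 0 := by
    intro n
    rcases n with _ | n
    · have := h 0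
      have e0 : v (0 + 1) = 0 := v_odd 0
      rw [inner_fv, e0, Nat.zero_sub, v_zero] at this
      simpa using this
    · have := h (2 * (n + 1))
      have a1 : 2 * (n + 1) - 1 = 2 * n + 1 := by omega
      rw [inner_fv, a1, v_odd, v_odd] at this
      simpa using this
  apply eq_zero_of_b b
  intro i
  rw [← inner_conj_symm]
  rcases Nat.even_or_odd' i with ⟨n, rfl | rfl⟩
  · rw [he]; simp
  · have := h (2 * n + 1)
    have a1 : 2 * n + 1 - 1 = 2 * n := by omega
    have a2 : 2 * n + 1 + 1 = 2 * (n + 1) := by ring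
    rw [inner_fv, a1, a2, he, he] at this
    have h2 : ⟪x, b (2 * n + 1)⟫_ℂ = 0 := by simpa using this
    rw [h2]; simp

theorem X_inj (b : HilbertBasis ℕ ℂ H) : Function.Injective (opX b) := by
  rw [injective_iff_map_eq_zero]
  intro x hx
  apply eq_zero_of_g b
  intro i
  have h1 := nucl_coef (sX b) (b_inner b) x i
  change ⟪b i, opX b x⟫_ℂ = _ at h1
  rw [hx, inner_zero_right] at h1
  exact (mul_eq_zero.1 h1.symm).resolve_left (dv_ne i)

theorem Y_inj (b : HilbertBasis ℕ ℂ H) : Function.Injective (opY b) := by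
  rw [injective_iff_map_eq_zero]
  intro x hx
  apply eq_zero_of_b b
  intro i
  have h1 := nucl_coef (sY b) (biorth b) x i
  change ⟪gv b i, opY b x⟫_ℂ = _ at h1
  rw [hx, inner_zero_right] at h1
  exact (mul_eq_zero.1 h1.symm).resolve_left (dv_ne i)

theorem denseRange_of {A : H →L[ℂ] H} (h : ∀ y, (∀ x, ⟪y, A x⟫_ℂ = 0) → y = 0) :
    DenseRange A := by
  have h1 : (LinearMap.range (A : H →ₗ[ℂ] H))ᗮ = ⊥ := by
    rw [Submodule.eq_bot_iff]
    intro y hy
    apply h
    intro x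
    rw [Submodule.mem_orthogonal'] at hy
    exact hy _ ⟨x, rfl⟩
  rw [← Submodule.topologicalClosure_eq_top_iff] at h1
  have h2 : Dense ((LinearMap.range (A : H →ₗ[ℂ] H) : Submodule ℂ H) : Set H) := by
    rw [Submodule.dense_iff_topologicalClosure_eq_top]; exact h1
  exact h2

theorem X_dense (b : HilbertBasis ℕ ℂ H) : DenseRange (opX b) := by
  apply denseRange_of
  intro y hy
  apply eq_zero_of_b b
  intro i
  have h1 : opX b (fv b i) = dv i • b i := nucl_apply (sX b) (biorth b) i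
  have h2 := hy (fv b i)
  rw [h1, inner_smul_right] at h2
  rw [← inner_conj_symm, (mul_eq_zero.1 h2).resolve_left (dv_ne i), map_zero]

theorem Y_dense (b : HilbertBasis ℕ ℂ H) : DenseRange (opY b) := by
  apply denseRange_of
  intro y hy
  apply eq_zero_of_f b
  intro i
  have h1 : opY b (b i) = dv i • fv b i := nucl_apply (sY b) (b_inner b) i
  have h2 := hy (b i)
  rw [h1, inner_smul_right] at h2
  exact (mul_eq_zero.1 h2).resolve_left (dv_ne i)

theorem N_selfAdjoint (b : HilbertBasis ℕ ℂ H) : IsSelfAdjoint (opN b) := by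
  rw [ContinuousLinearMap.isSelfAdjoint_iff_isSymmetric]
  intro x y
  have h1 := nucl_inner (sN b) y x
  have h2 := (nucl_inner (sN b) x y).map (starRingEnd ℂ) Complex.continuous_conj
  change ⟪opN b x, y⟫_ℂ = ⟪x, opN b y⟫_ℂ
  change HasSum _ ⟪x, opN b y⟫_ℂ at h1
  change HasSum _ ((starRingEnd ℂ) ⟪y, opN b x⟫_ℂ) at h2
  rw [inner_conj_symm] at h2
  refine h2.unique ?_
  convert h1 using 2 with i
  simp only [Function.comp_apply, map_mul, av_conj, inner_conj_symm]
  ring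

theorem N_normal (b : HilbertBasis ℕ ℂ H) : IsStarNormal (opN b) := (N_selfAdjoint b).isStarNormal

/-- coefficients of vectors in an invariant subspace -/
theorem coef_zero (b : HilbertBasis ℕ ℂ H) (x y : H)
    (h : ∀ k : ℕ, ⟪y, (opT b ^ (k + 1)) x⟫_ℂ = 0) :
    ∀ i, 0 < i → ⟪gv b i, x⟫_ℂ * ⟪y, fv b i⟫_ℂ = 0 := by
  refine moments (a := av) ?_ av_zero ?_ ?_ ?_
  · refine Summable.of_nonneg_of_le (fun i => by positivity) (fun i => ?_)
      ((sT b).mul_right (‖x‖ * ‖y‖))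
    have h1 := norm_inner_le_norm (𝕜 := ℂ) (gv b i) x
    have h2 := norm_inner_le_norm (𝕜 := ℂ) y (fv b i)
    rw [norm_mul]
    calc ‖av i‖ * (‖⟪gv b i, x⟫_ℂ‖ * ‖⟪y, fv b i⟫_ℂ‖)
        ≤ ‖av i‖ * ((‖gv b i‖ * ‖x‖) * (‖y‖ * ‖fv b i‖)) := by gcongr
      _ = _ := by ring
  · intro i hi
    rw [av_pos hi]; exact dv_ne i
  · intro i j hi hij
    rw [av_pos hi, av_pos (hi.trans hij), dv_norm, dv_norm]
    exact pow_lt_pow_right_of_lt_one₀ (by norm_num) (by norm_num) hij
  · intro k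
    rw [← h k]
    exact (nucl_pow_inner (sT b) (biorth b) x y k).tsum_eq

theorem pow_mem {A : H →L[ℂ] H} {M : Submodule ℂ H} (hM : ∀ x ∈ M, A x ∈ M) (k : ℕ) :
    ∀ x ∈ M, (A ^ k) x ∈ M := by
  induction k with
  | zero => intro x hx; simpa using hx
  | succ k ih =>
    intro x hx
    rw [pow_succ', mul_apply_eq_comp]
    exact hM _ (ih x hx)

/-- the projection killing `b 0` -/
noncomputable def opA (b : HilbertBasis ℕ ℂ H) : H →L[ℂ] H :=
  ContinuousLinearMap.id ℂ H - (innerSL ℂ (b 0)).smulRight (b 0)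

theorem opA_apply (b : HilbertBasis ℕ ℂ H) (x : H) : opA b x = x - ⟪b 0, x⟫_ℂ • b 0 := by
  simp [opA]

theorem mem_of_orth {M : Submodule ℂ H} (hM : IsClosed (M : Set H)) (x : H)
    (h : ∀ y, (∀ z ∈ M, ⟪y, z⟫_ℂ = 0) → ⟪y, x⟫_ℂ = 0) : x ∈ M := by
  have : CompleteSpace M := hM.completeSpace_coe
  rw [← Submodule.orthogonal_orthogonal M, Submodule.mem_orthogonal]
  intro y hy
  apply h
  intro z hz
  rw [Submodule.mem_orthogonal'] at hy
  exact hy z hz

theorem opA_algLat (b : HilbertBasis ℕ ℂ H) (M : Submodule ℂ H) (hM : IsClosed (M : Set H))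
    (hinv : ∀ x ∈ M, opT b x ∈ M) : ∀ x ∈ M, opA b x ∈ M := by
  intro x hx
  apply mem_of_orth hM
  intro y hy
  have h1 := one_point b x y (coef_zero b x y fun k => hy _ (pow_mem hinv (k + 1) x hx))
  rw [opA_apply, inner_sub_right, inner_smul_right, h1]
  ring

/-- the polynomial values -/
theorem aeval_pairing (b : HilbertBasis ℕ ℂ H) (p : Polynomial ℂ) :
    ⟪eta1 b, (Polynomial.aeval (opT b) p) (xi1 b)⟫_ℂ
      + ⟪eta2 b, (Polynomial.aeval (opT b) p) (xi2 b)⟫_ℂ = - p.coeff 0 ∧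
    ⟪b 0, (Polynomial.aeval (opT b) p) (b 0)⟫_ℂ = p.coeff 0 := by
  induction p using Polynomial.induction_on' with
  | add p q hp hq =>
    simp only [map_add, add_apply, inner_add_right, Polynomial.coeff_add]
    constructor
    · linear_combination hp.1 + hq.1
    · linear_combination hp.2 + hq.2
  | monomial n c =>
    rw [Polynomial.aeval_monomial]
    rcases n with _ | n
    · have e : ∀ x, ((algebraMap ℂ (H →L[ℂ] H)) c * opT b ^ 0) x = c • x := by
        intro x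
        rw [pow_zero, mul_one, ContinuousLinearMap.algebraMap_apply]
      simp only [e, inner_smul_right, Polynomial.coeff_monomial, if_true]
      constructor
      · linear_combination c * two_point_one b
      · rw [b_inner, if_pos rfl, mul_one]
    · have e : ∀ x, ((algebraMap ℂ (H →L[ℂ] H)) c * opT b ^ (n + 1)) x = c • (opT b ^ (n + 1)) x := by
        intro x
        rw [mul_apply_eq_comp, ContinuousLinearMap.algebraMap_apply]
      have h1 : ⟪eta1 b, (opT b ^ (n + 1)) (xi1 b)⟫_ℂ + ⟪eta2 b, (opT b ^ (n + 1)) (xi2 b)⟫_ℂ = 0 := by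
        have s1 := nucl_pow_inner (sT b) (biorth b) (xi1 b) (eta1 b) n
        have s2 := nucl_pow_inner (sT b) (biorth b) (xi2 b) (eta2 b) n
        refine (s1.add s2).unique ?_
        convert hasSum_zero using 2 with i
        rcases Nat.eq_zero_or_pos i with rfl | hi
        · rw [av_zero]; simp
        · linear_combination (av i) ^ (n + 1) * two_point_zero b i hi
      have h2 : ⟪b 0, (opT b ^ (n + 1)) (b 0)⟫_ℂ = 0 := by
        have s1 := nucl_pow_coef (sT b) (biorth b) (b 0) (n + 1) 0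
        have g0 : gv b 0 = b 0 := by simp [gv]
        rw [g0, av_zero, zero_pow (Nat.succ_ne_zero n), zero_mul] at s1
        exact s1
      simp only [e, inner_smul_right, Polynomial.coeff_monomial]
      constructor
      · simp only [Nat.add_eq_zero_iff, one_ne_zero, and_false, if_false]
        linear_combination c * h1
      · simp only [Nat.add_eq_zero_iff, one_ne_zero, and_false, if_false]
        rw [h2, mul_zero]

/-- `opA` is not in the weakly closed algebra generated by `T`. -/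
theorem not_approx (b : HilbertBasis ℕ ℂ H) (p : Polynomial ℂ)
    (h1 : ‖⟪eta1 b, (opA b - Polynomial.aeval (opT b) p) (xi1 b)⟫_ℂ‖ < 1 / 3)
    (h2 : ‖⟪eta2 b, (opA b - Polynomial.aeval (opT b) p) (xi2 b)⟫_ℂ‖ < 1 / 3)
    (h3 : ‖⟪b 0, (opA b - Polynomial.aeval (opT b) p) (b 0)⟫_ℂ‖ < 1 / 3) : False := by
  obtain ⟨e1, e2⟩ := aeval_pairing b p
  have a1 : opA b (xi1 b) = xi1 b := by rw [opA_apply, b0_xi1]; simp
  have a2 : opA b (xi2 b) = xi2 b := by rw [opA_apply, b0_xi2]; simp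
  have a3 : opA b (b 0) = 0 := by rw [opA_apply, b_inner]; simp
  simp only [sub_apply, inner_sub_right, a1, a2, a3, e2, inner_zero_right] at h1 h2 h3
  have key : (⟪eta1 b, xi1 b⟫_ℂ - ⟪eta1 b, (Polynomial.aeval (opT b) p) (xi1 b)⟫_ℂ)
      + (⟪eta2 b, xi2 b⟫_ℂ - ⟪eta2 b, (Polynomial.aeval (opT b) p) (xi2 b)⟫_ℂ)
      + (0 - p.coeff 0) = -1 := by
    linear_combination two_point_one b - e1
  have := norm_add₃_le (a := (⟪eta1 b, xi1 b⟫_ℂ - ⟪eta1 b, (Polynomial.aeval (opT b) p) (xi1 b)⟫_ℂ))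
    (b := (⟪eta2 b, xi2 b⟫_ℂ - ⟪eta2 b, (Polynomial.aeval (opT b) p) (xi2 b)⟫_ℂ)) (c := (0 - p.coeff 0))
  rw [key, norm_neg, norm_one] at this
  linarith

end Pool.Agent.H728R2
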