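import Pool.Agent.H728R2.Nucl

/-!
# A strong M-basis without the two point density property
-/

set_option autoImplicit false
set_option linter.unusedSectionVars false
open scoped InnerProductSpace Topology
open Filter

namespace Pool.Agent.H728R2

variable {H : Type*} [NormedAddCommGroup H] [InnerProductSpace ℂ H] [CompleteSpace H]

/-- the weights: `v (2 n + 2) = 6 ^ n`, and `0` at odd numbers and at `0`. -/
noncomputable def v (i : ℕ) : ℝ := if i % 2 = 0 ∧ i ≠ 0 then 6 ^ (i / 2 - 1) else 0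

@[simp] theorem v_zero : v 0 = 0 := by simp [v]
@[simp] theorem v_odd (n : ℕ) : v (2 * n + 1) = 0 := by
  have : ¬ ((2 * n + 1) % 2 = 0 ∧ 2 * n + 1 ≠ 0) := by omega
  simp only [v, this, if_false]
@[simp] theorem v_even (n : ℕ) : v (2 * n + 2) = 6 ^ n := by
  have h : (2 * n + 2) % 2 = 0 ∧ 2 * n + 2 ≠ 0 := by omega
  have h2 : (2 * n + 2) / 2 - 1 = n := by omega
  simp only [v, h, and_self, if_true, h2, ne_eq, not_false_eq_true]

theorem v_nonneg (i : ℕ) : 0 ≤ v i := by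
  unfold v; split_ifs <;> positivity

theorem v_le (i : ℕ) : v i ≤ 6 ^ i := by
  unfold v; split_ifs
  · exact pow_le_pow_right₀ (by norm_num) (by omega)
  · positivity

theorem three_cases (i : ℕ) : i = 0 ∨ (∃ n, i = 2 * n + 1) ∨ ∃ n, i = 2 * n + 2 := by
  rcases Nat.even_or_odd' i with ⟨k, rfl | rfl⟩
  · rcases k with _ | k
    · left; rfl
    · right; right; exact ⟨k, by ring⟩
  · right; left; exact ⟨k, rfl⟩

theorem v_ite (i j : ℕ) : (v j : ℂ) * (if i = j then (1:ℂ) else 0) = v i * (if i = j then 1 else 0) := by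
  by_cases h : i = j
  · rw [h]
  · simp [h]

theorem biorth_scalar (i j : ℕ) :
    ((if i = j then (1:ℂ) else 0) + v (j + 1) * (if i = j + 1 then 1 else 0)
      - v (j - 1) * (if i = j - 1 then 1 else 0))
    - v i * ((if i - 1 = j then (1:ℂ) else 0) + v (j + 1) * (if i - 1 = j + 1 then 1 else 0)
      - v (j - 1) * (if i - 1 = j - 1 then 1 else 0))
    + v i * ((if i + 1 = j then (1:ℂ) else 0) + v (j + 1) * (if i + 1 = j + 1 then 1 else 0)
      - v (j - 1) * (if i + 1 = j - 1 then 1 else 0))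
     = if i = j then 1 else 0 := by
  rw [v_ite i (j + 1), v_ite i (j - 1), v_ite (i - 1) (j + 1), v_ite (i - 1) (j - 1),
    v_ite (i + 1) (j + 1), v_ite (i + 1) (j - 1)]
  rcases three_cases i with rfl | ⟨m, rfl⟩ | ⟨m, rfl⟩
  · simp
  · simp
  · have e1 : 2 * m + 2 - 1 = 2 * m + 1 := by omega
    have e2 : 2 * m + 2 + 1 = 2 * (m + 1) + 1 := by ring
    rw [e1, e2]
    simp only [v_odd, v_even, Complex.ofReal_zero, zero_mul, add_zero, sub_zero]
    have e3 : (2 * m + 2 = j + 1) ↔ (2 * m + 1 = j) := by omega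
    have e4 : (2 * m + 2 = j - 1) ↔ (2 * (m + 1) + 1 = j) := by omega
    simp only [e3, e4]
    ring

/-- the M-basis -/
noncomputable def fv (b : HilbertBasis ℕ ℂ H) (i : ℕ) : H :=
  b i + (v (i + 1) : ℂ) • b (i + 1) - (v (i - 1) : ℂ) • b (i - 1)

/-- the dual system -/
noncomputable def gv (b : HilbertBasis ℕ ℂ H) (i : ℕ) : H :=
  b i - (v i : ℂ) • b (i - 1) + (v i : ℂ) • b (i + 1)

theorem b_inner (b : HilbertBasis ℕ ℂ H) (i j : ℕ) : ⟪b i, b j⟫_ℂ = if i = j then 1 else 0 :=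
  orthonormal_iff_ite.1 b.orthonormal i j

theorem b_norm (b : HilbertBasis ℕ ℂ H) (i : ℕ) : ‖b i‖ = 1 := b.orthonormal.1 i

theorem gv_inner (b : HilbertBasis ℕ ℂ H) (i : ℕ) (x : H) :
    ⟪gv b i, x⟫_ℂ = ⟪b i, x⟫_ℂ - v i * ⟪b (i - 1), x⟫_ℂ + v i * ⟪b (i + 1), x⟫_ℂ := by
  simp only [gv, inner_add_left, inner_sub_left, inner_smul_left, Complex.conj_ofReal]

theorem inner_fv (b : HilbertBasis ℕ ℂ H) (i : ℕ) (y : H) :
    ⟪y, fv b i⟫_ℂ = ⟪y, b i⟫_ℂ + v (i + 1) * ⟪y, b (i + 1)⟫_ℂ - v (i - 1) * ⟪y, b (i - 1)⟫_ℂ := by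
  simp only [fv, inner_add_right, inner_sub_right, inner_smul_right]

theorem biorth (b : HilbertBasis ℕ ℂ H) (i j : ℕ) :
    ⟪gv b i, fv b j⟫_ℂ = if i = j then 1 else 0 := by
  rw [gv_inner, inner_fv, inner_fv, inner_fv]
  simp only [b_inner]
  exact biorth_scalar i j

theorem gv_norm (b : HilbertBasis ℕ ℂ H) (i : ℕ) : ‖gv b i‖ ≤ 3 * 6 ^ i := by
  have h1 := v_nonneg i
  have h2 := v_le i
  have h3 : (1:ℝ) ≤ 6 ^ i := one_le_pow₀ (by norm_num)
  calc ‖gv b i‖ ≤ ‖b i‖ + ‖(v i : ℂ) • b (i - 1)‖ + ‖(v i : ℂ) • b (i + 1)‖ := by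
        unfold gv
        exact (norm_add_le _ _).trans (add_le_add_left (norm_sub_le _ _) _)
    _ = 1 + v i + v i := by
        simp only [norm_smul, b_norm, Complex.norm_real, Real.norm_eq_abs, abs_of_nonneg h1, mul_one]
    _ ≤ 3 * 6 ^ i := by linarith

theorem fv_norm (b : HilbertBasis ℕ ℂ H) (i : ℕ) : ‖fv b i‖ ≤ 8 * 6 ^ i := by
  have h1 := v_nonneg (i + 1)
  have h1' := v_nonneg (i - 1)
  have h2 := v_le (i + 1)
  have h2' := v_le (i - 1)
  have h3 : (1:ℝ) ≤ 6 ^ i := one_le_pow₀ (by norm_num)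
  have h4 : (6:ℝ) ^ (i - 1) ≤ 6 ^ i := pow_le_pow_right₀ (by norm_num) (by omega)
  calc ‖fv b i‖ ≤ ‖b i‖ + ‖(v (i + 1) : ℂ) • b (i + 1)‖ + ‖(v (i - 1) : ℂ) • b (i - 1)‖ := by
        unfold fv
        exact (norm_sub_le _ _).trans (add_le_add_left (norm_add_le _ _) _)
    _ = 1 + v (i + 1) + v (i - 1) := by
        simp only [norm_smul, b_norm, Complex.norm_real, Real.norm_eq_abs, abs_of_nonneg h1,
          abs_of_nonneg h1', mul_one]
    _ ≤ 8 * 6 ^ i := by rw [pow_succ] at h2; linarith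

end Pool.Agent.H728R2
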