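import Mathlib

/-!
# Diagonal operators with respect to a biorthogonal system

Operators `x ↦ ∑ c i ⟪g i, x⟫ f i` on a Hilbert space, for absolutely convergent data.
-/

set_option autoImplicit false
set_option linter.unusedSectionVars false
open scoped InnerProductSpace Topology
open Filter

namespace Pool.Agent.H728R2

variable {H K L : Type*} [NormedAddCommGroup H] [InnerProductSpace ℂ H] [CompleteSpace H]
  [NormedAddCommGroup K] [InnerProductSpace ℂ K] [CompleteSpace K]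
  [NormedAddCommGroup L] [InnerProductSpace ℂ L] [CompleteSpace L]

/-- The operator `∑ c i ⟪g i, ·⟫ f i`. -/
noncomputable def nucl (c : ℕ → ℂ) (g : ℕ → H) (f : ℕ → K) : H →L[ℂ] K :=
  ∑' i, c i • (innerSL ℂ (g i)).smulRight (f i)

theorem nucl_summable {c : ℕ → ℂ} {g : ℕ → H} {f : ℕ → K}
    (h : Summable fun i => ‖c i‖ * ‖g i‖ * ‖f i‖) :
    Summable fun i => c i • (innerSL ℂ (g i)).smulRight (f i) := by
  refine Summable.of_norm_bounded h fun i => ?_
  rw [norm_smul, ContinuousLinearMap.norm_smulRight_apply, innerSL_apply_norm, mul_assoc]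

theorem nucl_hasSum {c : ℕ → ℂ} {g : ℕ → H} {f : ℕ → K}
    (h : Summable fun i => ‖c i‖ * ‖g i‖ * ‖f i‖) (x : H) :
    HasSum (fun i => (c i * ⟪g i, x⟫_ℂ) • f i) (nucl c g f x) := by
  have h1 := (nucl_summable h).hasSum
  have h2 := h1.mapL (ContinuousLinearMap.apply ℂ K x)
  have e : ∀ i, (ContinuousLinearMap.apply ℂ K x) (c i • (innerSL ℂ (g i)).smulRight (f i))
      = (c i * ⟪g i, x⟫_ℂ) • f i := by
    intro i
    simp [mul_smul]
  simp only [e] at h2
  exact h2

/-- Pairing with a fixed vector. -/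
theorem nucl_inner {c : ℕ → ℂ} {g : ℕ → H} {f : ℕ → K}
    (h : Summable fun i => ‖c i‖ * ‖g i‖ * ‖f i‖) (x : H) (y : K) :
    HasSum (fun i => c i * ⟪g i, x⟫_ℂ * ⟪y, f i⟫_ℂ) ⟪y, nucl c g f x⟫_ℂ := by
  have h2 := (nucl_hasSum h x).mapL (innerSL ℂ y)
  have e : ∀ i, (innerSL ℂ y) ((c i * ⟪g i, x⟫_ℂ) • f i) = c i * ⟪g i, x⟫_ℂ * ⟪y, f i⟫_ℂ := by
    intro i
    simp
  simp only [e] at h2
  exact h2

/-- biorthogonality: applying the functional `⟪g' j, ·⟫` dual to `f j`. -/
theorem nucl_coef {c : ℕ → ℂ} {g : ℕ → H} {f g' : ℕ → K}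
    (h : Summable fun i => ‖c i‖ * ‖g i‖ * ‖f i‖)
    (hb : ∀ i j, ⟪g' i, f j⟫_ℂ = if i = j then 1 else 0) (x : H) (j : ℕ) :
    ⟪g' j, nucl c g f x⟫_ℂ = c j * ⟪g j, x⟫_ℂ := by
  have h1 := nucl_inner h x (g' j)
  have h2 : HasSum (fun i => c i * ⟪g i, x⟫_ℂ * ⟪g' j, f i⟫_ℂ) (c j * ⟪g j, x⟫_ℂ) := by
    convert hasSum_ite_eq j (c j * ⟪g j, x⟫_ℂ) using 2 with i
    rw [hb]
    by_cases hij : j = i
    · subst hij; simp
    · simp [hij, Ne.symm hij]
  exact h1.unique h2

/-- the operator on the vectors of a system dual to `g`. -/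
theorem nucl_apply {c : ℕ → ℂ} {g f' : ℕ → H} {f : ℕ → K}
    (h : Summable fun i => ‖c i‖ * ‖g i‖ * ‖f i‖)
    (hb : ∀ i j, ⟪g i, f' j⟫_ℂ = if i = j then 1 else 0) (j : ℕ) :
    nucl c g f (f' j) = c j • f j := by
  have h1 := nucl_hasSum h (f' j)
  have h2 : HasSum (fun i => (c i * ⟪g i, f' j⟫_ℂ) • f i) (c j • f j) := by
    convert hasSum_ite_eq j (c j • f j) using 2 with i
    rw [hb]
    by_cases hij : i = j
    · subst hij; simp
    · simp [hij]
  exact h1.unique h2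

/-- composition of two diagonal operators. -/
theorem nucl_comp {c d e : ℕ → ℂ} {g : ℕ → H} {f g' : ℕ → K} {f' : ℕ → L}
    (h : Summable fun i => ‖c i‖ * ‖g i‖ * ‖f i‖)
    (h' : Summable fun i => ‖d i‖ * ‖g' i‖ * ‖f' i‖)
    (h'' : Summable fun i => ‖e i‖ * ‖g i‖ * ‖f' i‖)
    (hb : ∀ i j, ⟪g' i, f j⟫_ℂ = if i = j then 1 else 0)
    (hc : ∀ i, e i = d i * c i) :
    (nucl d g' f').comp (nucl c g f) = nucl e g f' := by
  ext x
  have h1 := nucl_hasSum h' (nucl c g f x)
  have h2 := nucl_hasSum h'' x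
  refine h1.unique ?_
  convert h2 using 2 with i
  rw [nucl_coef h hb, hc, mul_assoc]

/-- coefficients of powers -/
theorem nucl_pow_coef {a : ℕ → ℂ} {g f : ℕ → H}
    (h : Summable fun i => ‖a i‖ * ‖g i‖ * ‖f i‖)
    (hb : ∀ i j, ⟪g i, f j⟫_ℂ = if i = j then 1 else 0) (x : H) (k j : ℕ) :
    ⟪g j, ((nucl a g f) ^ k) x⟫_ℂ = a j ^ k * ⟪g j, x⟫_ℂ := by
  induction k with
  | zero => simp
  | succ k ih =>
    rw [pow_succ', mul_apply_eq_comp, nucl_coef h hb, ih, pow_succ']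
    ring

/-- pairings of powers -/
theorem nucl_pow_inner {a : ℕ → ℂ} {g f : ℕ → H}
    (h : Summable fun i => ‖a i‖ * ‖g i‖ * ‖f i‖)
    (hb : ∀ i j, ⟪g i, f j⟫_ℂ = if i = j then 1 else 0) (x y : H) (k : ℕ) :
    HasSum (fun i => a i ^ (k + 1) * (⟪g i, x⟫_ℂ * ⟪y, f i⟫_ℂ))
      ⟪y, ((nucl a g f) ^ (k + 1)) x⟫_ℂ := by
  rw [pow_succ', mul_apply_eq_comp]
  convert nucl_inner h (((nucl a g f) ^ k) x) y using 2 with i
  rw [nucl_pow_coef h hb]
  ring

/-- If all moments vanish, the masses vanish. -/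
theorem moments {a : ℕ → ℂ} {m : ℕ → ℂ} (hs : Summable fun i => ‖a i‖ * ‖m i‖)
    (ha0 : a 0 = 0) (ha : ∀ i, 0 < i → a i ≠ 0)
    (hlt : ∀ i j, 0 < i → i < j → ‖a j‖ < ‖a i‖)
    (hm : ∀ k : ℕ, ∑' i, a i ^ (k + 1) * m i = 0) : ∀ i, 0 < i → m i = 0 := by
  intro i
  induction i using Nat.strong_induction_on with
  | _ i ih =>
    intro hi
    have hai := ha i hi
    have hain : 0 < ‖a i‖ := norm_pos_iff.2 hai
    have hle : ∀ j, (j = 0 ∨ i ≤ j) → ‖a j / a i‖ ≤ 1 := by
      rintro j (rfl | hj)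
      · rw [ha0]; simp
      · rw [norm_div, div_le_one hain]
        rcases hj.lt_or_eq with h | h
        · exact (hlt i j hi h).le
        · rw [h]
    have hzero : ∀ j, ¬ (j = 0 ∨ i ≤ j) → m j = 0 := by
      intro j hj
      push Not at hj
      exact ih j hj.2 (Nat.pos_of_ne_zero hj.1)
    have key : Tendsto (fun k : ℕ => ∑' j, (a j / a i) ^ (k + 1) * m j) atTop
        (𝓝 (∑' j, if j = i then m i else 0)) := by
      refine tendsto_tsum_of_dominated_convergence (bound := fun j => ‖a i‖⁻¹ * (‖a j‖ * ‖m j‖))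
        (hs.mul_left _) ?_ ?_
      · intro j
        by_cases hj : j = i
        · subst hj
          simp only [if_true]
          refine tendsto_const_nhds.congr fun k => ?_
          rw [div_self hai, one_pow, one_mul]
        · simp only [hj, if_false]
          by_cases hj2 : j = 0 ∨ i ≤ j
          · have hlt1 : ‖a j / a i‖ < 1 := by
              rcases hj2 with rfl | hj2
              · rw [ha0]; simp
              · rw [norm_div, div_lt_one hain]
                exact hlt i j hi (lt_of_le_of_ne hj2 (Ne.symm hj))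
            have := (tendsto_pow_atTop_nhds_zero_of_norm_lt_one hlt1).comp (tendsto_add_atTop_nat 1)
            simpa using this.mul_const (m j)
          · rw [hzero j hj2]
            simp
      · refine Eventually.of_forall fun k j => ?_
        by_cases hj2 : j = 0 ∨ i ≤ j
        · rw [norm_mul, norm_pow, pow_succ]
          have h1 := hle j hj2
          have h2 : ‖a j / a i‖ ^ k ≤ 1 := pow_le_one₀ (norm_nonneg _) h1
          have h3 : ‖a j / a i‖ = ‖a i‖⁻¹ * ‖a j‖ := by rw [norm_div]; field_simp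
          calc ‖a j / a i‖ ^ k * ‖a j / a i‖ * ‖m j‖ ≤ 1 * ‖a j / a i‖ * ‖m j‖ := by gcongr
            _ = ‖a i‖⁻¹ * (‖a j‖ * ‖m j‖) := by rw [h3]; ring
        · rw [hzero j hj2]
          simp
    have hz : ∀ k : ℕ, ∑' j, (a j / a i) ^ (k + 1) * m j = 0 := by
      intro k
      have : ∀ j, (a j / a i) ^ (k + 1) * m j = (a i ^ (k + 1))⁻¹ * (a j ^ (k + 1) * m j) := by
        intro j
        rw [div_pow]
        field_simp
      simp only [this, tsum_mul_left, hm k, mul_zero]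
    simp only [hz] at key
    have h0 := tendsto_nhds_unique key tendsto_const_nhds
    rw [tsum_ite_eq] at h0
    exact h0

end Pool.Agent.H728R2
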