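import Pool.Agent.H728R2.MBasis

/-!
# The one point density property
-/

set_option autoImplicit false
set_option linter.unusedSectionVars false
open scoped InnerProductSpace Topology
open Filter

namespace Pool.Agent.H728R2

/-- growth lemma -/
theorem seq_lemma (s t : ℕ → ℂ) (C D : ℝ) (hC : 0 ≤ C) (n0 : ℕ)
    (hs0 : Tendsto s atTop (𝓝 0))
    (h1 : ∀ n, n0 ≤ n → ‖s n - s (n + 1)‖ ≤ C * (1 / 6) ^ n)
    (h2 : ∀ n, n0 ≤ n → ‖t (n + 1)‖ ≤ ‖t n‖ + D) :
    Tendsto (fun n => s n * t n) atTop (𝓝 0) := by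
  -- bound on s
  have hs : ∀ n, n0 ≤ n → ‖s n‖ ≤ 6 / 5 * C * (1 / 6) ^ n := by
    intro n hn
    have hmono : ∀ k, ‖s n‖ - 6 / 5 * C * (1 / 6) ^ n ≤ ‖s (n + k)‖ - 6 / 5 * C * (1 / 6) ^ (n + k) := by
      intro k
      induction k with
      | zero => simp
      | succ k ih =>
        have h3 := h1 (n + k) (by omega)
        have h4 : ‖s (n + k)‖ - ‖s (n + k + 1)‖ ≤ ‖s (n + k) - s (n + k + 1)‖ := norm_sub_norm_le _ _
        have h5 : (1 / 6 : ℝ) ^ (n + (k + 1)) = (1 / 6) ^ (n + k) * (1 / 6) := by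
          rw [← add_assoc, pow_succ]
        rw [h5, ← add_assoc]
        nlinarith
    have hlim : Tendsto (fun k : ℕ => ‖s (n + k)‖ - 6 / 5 * C * (1 / 6) ^ (n + k)) atTop (𝓝 (‖(0:ℂ)‖ - 6 / 5 * C * 0)) := by
      have ht : Tendsto (fun k : ℕ => n + k) atTop atTop :=
      tendsto_atTop_mono (fun k => (by omega : k ≤ n + k)) tendsto_id
      refine Tendsto.sub ((hs0.comp ht).norm) (Tendsto.const_mul _ ?_)
      exact (tendsto_pow_atTop_nhds_zero_of_lt_one (by norm_num) (by norm_num)).comp ht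
    have := ge_of_tendsto' hlim hmono
    simp only [norm_zero, mul_zero, sub_zero] at this
    linarith
  have ht : ∀ k, ‖t (n0 + k)‖ ≤ ‖t n0‖ + k * D := by
    intro k
    induction k with
    | zero => simp
    | succ k ih =>
      have := h2 (n0 + k) (by omega)
      push_cast
      rw [← add_assoc]
      linarith
  rw [← tendsto_add_atTop_iff_nat n0]
  have hb : ∀ k : ℕ, ‖s (k + n0) * t (k + n0)‖ ≤
      6 / 5 * C * (1 / 6) ^ n0 * ‖t n0‖ * (1 / 6) ^ k + 6 / 5 * C * (1 / 6) ^ n0 * D * (k * (1 / 6) ^ k) := by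
    intro k
    have e1 := hs (n0 + k) (by omega)
    have e2 := ht k
    rw [add_comm k n0, norm_mul]
    calc ‖s (n0 + k)‖ * ‖t (n0 + k)‖ ≤ (6 / 5 * C * (1 / 6) ^ (n0 + k)) * (‖t n0‖ + k * D) := by
          apply mul_le_mul e1 e2 (norm_nonneg _) (by positivity)
      _ = _ := by rw [pow_add]; ring
  refine squeeze_zero_norm hb ?_
  have l1 : Tendsto (fun k : ℕ => (1 / 6 : ℝ) ^ k) atTop (𝓝 0) :=
    tendsto_pow_atTop_nhds_zero_of_lt_one (by norm_num) (by norm_num)
  have l2 : Tendsto (fun k : ℕ => (k : ℝ) * (1 / 6 : ℝ) ^ k) atTop (𝓝 0) :=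
    tendsto_self_mul_const_pow_of_lt_one (by norm_num) (by norm_num)
  have := (l1.const_mul (6 / 5 * C * (1 / 6) ^ n0 * ‖t n0‖)).add (l2.const_mul (6 / 5 * C * (1 / 6) ^ n0 * D))
  simpa using this

/-- scalar form of the one point density property -/
theorem one_point_scalar (X Y : ℕ → ℂ) (S : ℂ) (CX CY : ℝ) (hX : ∀ i, ‖X i‖ ≤ CX)
    (hY : ∀ i, ‖Y i‖ ≤ CY) (hX0 : Tendsto X atTop (𝓝 0)) (hS : HasSum (fun i => Y i * X i) S)
    (h : ∀ i, 0 < i → (X i - v i * X (i - 1) + v i * X (i + 1)) *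
      (Y i + v (i + 1) * Y (i + 1) - v (i - 1) * Y (i - 1)) = 0) :
    S = Y 0 * X 0 := by
  by_contra hne
  have hCX : 0 ≤ CX := (norm_nonneg _).trans (hX 0)
  have hE : ∀ n, (X (2 * n + 2) - 6 ^ n * X (2 * n + 1) + 6 ^ n * X (2 * n + 3)) * Y (2 * n + 2) = 0 := by
    intro n
    have := h (2 * n + 2) (by omega)
    have e1 : 2 * n + 2 - 1 = 2 * n + 1 := by omega
    have e2 : 2 * n + 2 + 1 = 2 * (n + 1) + 1 := by ring
    rw [e1, e2, v_odd, v_odd, v_even] at this
    have e3 : 2 * n + 3 = 2 * (n + 1) + 1 := by ring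
    rw [e3]
    simpa using this
  have hO0 : X 1 * (Y 1 + Y 2) = 0 := by
    have := h 1 (by omega)
    have e0 : v 1 = 0 := v_odd 0
    have e1 : v (1 + 1) = 1 := by simpa using v_even 0
    rw [e0, e1] at this
    simpa using this
  have hO : ∀ n, X (2 * n + 3) * (Y (2 * n + 3) + 6 ^ (n + 1) * Y (2 * n + 4) - 6 ^ n * Y (2 * n + 2)) = 0 := by
    intro n
    have := h (2 * n + 3) (by omega)
    have e1 : 2 * n + 3 - 1 = 2 * n + 2 := by omega
    have e2 : 2 * n + 3 + 1 = 2 * (n + 1) + 2 := by ring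
    have e0 : v (2 * n + 3) = 0 := v_odd (n + 1)
    rw [e0, e1, e2, v_even, v_even] at this
    have e3 : 2 * n + 4 = 2 * (n + 1) + 2 := by ring
    rw [e3]
    simpa using this
  -- partial sums
  have hP : ∀ n, ∑ i ∈ Finset.range (2 * n + 3), Y i * X i = Y 0 * X 0 - 6 ^ n * X (2 * n + 3) * Y (2 * n + 2) := by
    intro n
    induction n with
    | zero =>
      rw [Finset.sum_range_succ, Finset.sum_range_succ, Finset.sum_range_one]
      have e1 := hE 0
      simp only [mul_zero, zero_add, pow_zero, one_mul] at e1 ⊢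
      linear_combination hO0 + e1
    | succ n ih =>
      have e : 2 * (n + 1) + 3 = 2 * n + 3 + 1 + 1 := by ring
      rw [e, Finset.sum_range_succ, Finset.sum_range_succ, ih]
      have e1 := hE (n + 1)
      have e2 := hO n
      have a1 : 2 * (n + 1) + 2 = 2 * n + 4 := by ring
      have a2 : 2 * (n + 1) + 1 = 2 * n + 3 := by ring
      have a3 : 2 * (n + 1) + 3 = 2 * n + 5 := by ring
      have a4 : 2 * n + 3 + 1 = 2 * n + 4 := by ring
      have a5 : 2 * n + 4 + 1 = 2 * n + 5 := by ring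
      rw [a1, a2, a3] at e1
      rw [a4, a5, a1]
      linear_combination e2 + e1
  set c := Y 0 * X 0 - S with hc
  have hc0 : c ≠ 0 := fun h0 => hne (sub_eq_zero.1 h0).symm
  have hB : Tendsto (fun n => 6 ^ n * X (2 * n + 3) * Y (2 * n + 2)) atTop (𝓝 c) := by
    have h1 := hS.tendsto_sum_nat
    have h2 : Tendsto (fun n : ℕ => 2 * n + 3) atTop atTop :=
      tendsto_atTop_mono (fun n => (by omega : n ≤ 2 * n + 3)) tendsto_id
    have h3 := (h1.comp h2).const_sub (Y 0 * X 0)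
    refine h3.congr fun n => ?_
    simp only [Function.comp_apply, hP]
    ring
  have hYX : Tendsto (fun n => X (2 * n + 2) * Y (2 * n + 2)) atTop (𝓝 0) := by
    have h2 : Tendsto (fun n : ℕ => 2 * n + 2) atTop atTop :=
      tendsto_atTop_mono (fun n => (by omega : n ≤ 2 * n + 2)) tendsto_id
    have h3 := hS.summable.tendsto_atTop_zero.comp h2
    refine h3.congr fun n => ?_
    simp only [Function.comp_apply]
    ring
  have hA : Tendsto (fun n => X (2 * n + 1) * (6 ^ n * Y (2 * n + 2))) atTop (𝓝 c) := by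
    have h3 := hB.add hYX
    rw [add_zero] at h3
    refine h3.congr fun n => ?_
    linear_combination hE n
  have evA := hA.eventually_ne hc0
  have evB := hB.eventually_ne hc0
  obtain ⟨n0, hn0⟩ := eventually_atTop.1 (evA.and evB)
  have hs0 : Tendsto (fun n => X (2 * n + 1)) atTop (𝓝 0) := by
    have h2 : Tendsto (fun n : ℕ => 2 * n + 1) atTop atTop :=
      tendsto_atTop_mono (fun n => (by omega : n ≤ 2 * n + 1)) tendsto_id
    exact hX0.comp h2
  have key := seq_lemma (fun n => X (2 * n + 1)) (fun n => 6 ^ n * Y (2 * n + 2)) CX CY hCX n0 hs0 ?_ ?_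
  · have := tendsto_nhds_unique key hA
    exact hc0 this.symm
  · intro n hn
    have hy : Y (2 * n + 2) ≠ 0 := by
      intro h0
      apply (hn0 n hn).1
      rw [h0]; ring
    have e1 := (mul_eq_zero.1 (hE n)).resolve_right hy
    have e2 : X (2 * n + 1) - X (2 * (n + 1) + 1) = X (2 * n + 2) * (1 / 6) ^ n := by
      have a2 : 2 * (n + 1) + 1 = 2 * n + 3 := by ring
      rw [a2, one_div, inv_pow]
      have h6 : (6:ℂ) ^ n ≠ 0 := pow_ne_zero _ (by norm_num)
      field_simp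
      linear_combination -e1
    change ‖X (2 * n + 1) - X (2 * (n + 1) + 1)‖ ≤ _
    rw [e2, norm_mul]
    have : ‖((1:ℂ) / 6) ^ n‖ = (1 / 6) ^ n := by
      rw [norm_pow]; norm_num
    rw [this]
    exact mul_le_mul_of_nonneg_right (hX _) (by positivity)
  · intro n hn
    have hx : X (2 * n + 3) ≠ 0 := by
      intro h0
      apply (hn0 n hn).2
      rw [h0]; ring
    have e1 := (mul_eq_zero.1 (hO n)).resolve_left hx
    have e2 : (6:ℂ) ^ (n + 1) * Y (2 * (n + 1) + 2) = 6 ^ n * Y (2 * n + 2) - Y (2 * n + 3) := by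
      have a2 : 2 * (n + 1) + 2 = 2 * n + 4 := by ring
      rw [a2]
      linear_combination e1
    change ‖(6:ℂ) ^ (n + 1) * Y (2 * (n + 1) + 2)‖ ≤ _
    rw [e2]
    exact (norm_sub_le _ _).trans (add_le_add_right (hY _) _)

variable {H : Type*} [NormedAddCommGroup H] [InnerProductSpace ℂ H] [CompleteSpace H]

theorem one_point (b : HilbertBasis ℕ ℂ H) (x y : H)
    (h : ∀ i, 0 < i → ⟪gv b i, x⟫_ℂ * ⟪y, fv b i⟫_ℂ = 0) :
    ⟪y, x⟫_ℂ = ⟪y, b 0⟫_ℂ * ⟪b 0, x⟫_ℂ := by
  have hx : ∀ i, ‖⟪b i, x⟫_ℂ‖ ≤ ‖x‖ := fun i => by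
    have := norm_inner_le_norm (𝕜 := ℂ) (b i) x
    rwa [b_norm, one_mul] at this
  have hy : ∀ i, ‖⟪y, b i⟫_ℂ‖ ≤ ‖y‖ := fun i => by
    have := norm_inner_le_norm (𝕜 := ℂ) y (b i)
    rwa [b_norm, mul_one] at this
  refine one_point_scalar (fun i => ⟪b i, x⟫_ℂ) (fun i => ⟪y, b i⟫_ℂ) _ ‖x‖ ‖y‖ hx hy ?_
    (b.hasSum_inner_mul_inner y x) ?_
  · have h1 := (b.summable_inner_mul_inner x x).tendsto_atTop_zero
    rw [tendsto_zero_iff_norm_tendsto_zero] at h1 ⊢
    have h2 : ∀ i, ‖⟪x, b i⟫_ℂ * ⟪b i, x⟫_ℂ‖ = ‖⟪b i, x⟫_ℂ‖ ^ 2 := by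
      intro i
      rw [norm_mul, norm_inner_symm, sq]
    simp only [h2] at h1
    have h3 := (Real.continuous_sqrt.tendsto 0).comp h1
    rw [Real.sqrt_zero] at h3
    refine h3.congr fun i => ?_
    simp only [Function.comp_apply]
    exact Real.sqrt_sq (norm_nonneg _)
  · intro i hi
    have := h i hi
    rwa [gv_inner, inner_fv] at this

end Pool.Agent.H728R2
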