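import Pool.Agent.H728R2.OnePoint

/-!
# Failure of the two point density property
-/

set_option autoImplicit false
set_option linter.unusedSectionVars false
open scoped InnerProductSpace Topology
open Filter

namespace Pool.Agent.H728R2

/-- geometric sequence on the odd numbers -/
noncomputable def od (r : ℝ) (i : ℕ) : ℂ := if i % 2 = 1 then ((r ^ (i / 2) : ℝ) : ℂ) else 0
/-- geometric sequence on the positive even numbers -/
noncomputable def ev (r : ℝ) (i : ℕ) : ℂ :=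
  if i % 2 = 0 ∧ i ≠ 0 then ((r ^ (i / 2 - 1) : ℝ) : ℂ) else 0

@[simp] theorem od_odd (r : ℝ) (n : ℕ) : od r (2 * n + 1) = ((r ^ n : ℝ) : ℂ) := by
  have h1 : (2 * n + 1) % 2 = 1 := by omega
  have h2 : (2 * n + 1) / 2 = n := by omega
  simp only [od, h1, if_true, h2]
@[simp] theorem od_even (r : ℝ) (n : ℕ) : od r (2 * n) = 0 := by
  have h1 : ¬ (2 * n) % 2 = 1 := by omega
  simp only [od, h1, if_false]
@[simp] theorem ev_odd (r : ℝ) (n : ℕ) : ev r (2 * n + 1) = 0 := by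
  have : ¬ ((2 * n + 1) % 2 = 0 ∧ 2 * n + 1 ≠ 0) := by omega
  simp only [ev, this, if_false]
@[simp] theorem ev_zero (r : ℝ) : ev r 0 = 0 := by simp [ev]
@[simp] theorem ev_even (r : ℝ) (n : ℕ) : ev r (2 * n + 2) = ((r ^ n : ℝ) : ℂ) := by
  have h : (2 * n + 2) % 2 = 0 ∧ 2 * n + 2 ≠ 0 := by omega
  have h2 : (2 * n + 2) / 2 - 1 = n := by omega
  simp only [ev, h, and_self, if_true, h2, ne_eq, not_false_eq_true]

theorem od_summable {r : ℝ} (h0 : 0 ≤ r) (h1 : r < 1) : Summable fun i => ‖od r i‖ := by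
  apply Summable.even_add_odd
  · simp
  · simp only [od_odd, Complex.norm_real, Real.norm_eq_abs, abs_of_nonneg (pow_nonneg h0 _)]
    exact summable_geometric_of_lt_one h0 h1

theorem ev_summable {r : ℝ} (h0 : 0 ≤ r) (h1 : r < 1) : Summable fun i => ‖ev r i‖ := by
  apply Summable.even_add_odd
  · rw [← summable_nat_add_iff 1]
    have : ∀ n : ℕ, ‖ev r (2 * (n + 1))‖ = r ^ n := by
      intro n
      have e : 2 * (n + 1) = 2 * n + 2 := by ring
      rw [e, ev_even, Complex.norm_real, Real.norm_eq_abs, abs_of_nonneg (pow_nonneg h0 _)]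
    simp only [this]
    exact summable_geometric_of_lt_one h0 h1
  · simp

variable {H : Type*} [NormedAddCommGroup H] [InnerProductSpace ℂ H] [CompleteSpace H]

/-- the vector with given (absolutely summable) coordinates -/
noncomputable def vecOf (b : HilbertBasis ℕ ℂ H) (c : ℕ → ℂ) : H := ∑' i, c i • b i

theorem vecOf_hasSum (b : HilbertBasis ℕ ℂ H) {c : ℕ → ℂ} (hc : Summable fun i => ‖c i‖) :
    HasSum (fun i => c i • b i) (vecOf b c) := by
  have : Summable fun i => c i • b i := by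
    refine Summable.of_norm_bounded hc fun i => ?_
    rw [norm_smul, b_norm, mul_one]
  exact this.hasSum

theorem vecOf_inner (b : HilbertBasis ℕ ℂ H) {c : ℕ → ℂ} (hc : Summable fun i => ‖c i‖) (i : ℕ) :
    ⟪b i, vecOf b c⟫_ℂ = c i := by
  have h2 := (vecOf_hasSum b hc).mapL (innerSL ℂ (b i))
  have e : ∀ j, (innerSL ℂ (b i)) (c j • b j) = if j = i then c i else 0 := by
    intro j
    simp only [innerSL_apply_apply, inner_smul_right, b_inner]
    by_cases h : j = i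
    · subst h; simp
    · simp [h, Ne.symm h]
  simp only [e] at h2
  exact h2.unique (hasSum_ite_eq i (c i))

/-- test vectors -/
noncomputable def xi1 (b : HilbertBasis ℕ ℂ H) : H := vecOf b (od (1 / 2))
noncomputable def xi2 (b : HilbertBasis ℕ ℂ H) : H := vecOf b (od (1 / 3))
noncomputable def eta1 (b : HilbertBasis ℕ ℂ H) : H := (4 : ℂ) • vecOf b (ev (1 / 3)) - b 1
noncomputable def eta2 (b : HilbertBasis ℕ ℂ H) : H := (-3 : ℂ) • vecOf b (ev (1 / 2))

theorem b_xi1 (b : HilbertBasis ℕ ℂ H) (i : ℕ) : ⟪b i, xi1 b⟫_ℂ = od (1 / 2) i :=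
  vecOf_inner b (od_summable (by norm_num) (by norm_num)) i
theorem b_xi2 (b : HilbertBasis ℕ ℂ H) (i : ℕ) : ⟪b i, xi2 b⟫_ℂ = od (1 / 3) i :=
  vecOf_inner b (od_summable (by norm_num) (by norm_num)) i

theorem ev_conj (r : ℝ) (i : ℕ) : (starRingEnd ℂ) (ev r i) = ev r i := by
  unfold ev; split_ifs <;> simp

theorem eta1_b (b : HilbertBasis ℕ ℂ H) (i : ℕ) :
    ⟪eta1 b, b i⟫_ℂ = 4 * ev (1 / 3) i - if i = 1 then 1 else 0 := by
  rw [← inner_conj_symm, eta1, inner_sub_right, inner_smul_right, b_inner,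
    vecOf_inner b (ev_summable (by norm_num) (by norm_num)), map_sub, map_mul, ev_conj]
  have c4 : (starRingEnd ℂ) 4 = 4 := map_ofNat _ 4
  rw [c4]
  split_ifs <;> simp
theorem eta2_b (b : HilbertBasis ℕ ℂ H) (i : ℕ) :
    ⟪eta2 b, b i⟫_ℂ = -3 * ev (1 / 2) i := by
  rw [← inner_conj_symm, eta2, inner_smul_right,
    vecOf_inner b (ev_summable (by norm_num) (by norm_num)), map_mul, ev_conj]
  have c3 : (starRingEnd ℂ) 3 = 3 := map_ofNat _ 3
  rw [map_neg, c3]

theorem two_point_zero (b : HilbertBasis ℕ ℂ H) (i : ℕ) (hi : 0 < i) :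
    ⟪gv b i, xi1 b⟫_ℂ * ⟪eta1 b, fv b i⟫_ℂ + ⟪gv b i, xi2 b⟫_ℂ * ⟪eta2 b, fv b i⟫_ℂ = 0 := by
  simp only [gv_inner, inner_fv, b_xi1, b_xi2, eta1_b, eta2_b]
  rcases three_cases i with rfl | ⟨n, rfl⟩ | ⟨n, rfl⟩
  · exact absurd hi (lt_irrefl _)
  · rcases n with _ | n
    · have e1 : v 1 = 0 := v_odd 0
      have e2 : v 2 = 1 := by simpa using v_even 0
      have e3 : od (1 / 2) 1 = 1 := by simpa using od_odd (1 / 2) 0
      have e4 : od (1 / 3) 1 = 1 := by simpa using od_odd (1 / 3) 0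
      have e5 : ev (1 / 3) 1 = 0 := ev_odd (1 / 3) 0
      have e6 : ev (1 / 2) 1 = 0 := ev_odd (1 / 2) 0
      have e7 : ev (1 / 3) 2 = 1 := by simpa using ev_even (1 / 3) 0
      have e8 : ev (1 / 2) 2 = 1 := by simpa using ev_even (1 / 2) 0
      simp only [mul_zero, zero_add, e1, e2, e3, e4, e5, e6, Nat.reduceAdd, e7, e8, Nat.sub_self, v_zero]
      norm_num
    · have a1 : 2 * (n + 1) + 1 - 1 = 2 * n + 2 := by omega
      have a2 : 2 * (n + 1) + 1 + 1 = 2 * (n + 1) + 2 := by ring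
      have a3 : ¬ (2 * (n + 1) + 1 = 1) := by omega
      have a4 : ¬ (2 * (n + 1) + 2 = 1) := by omega
      have a5 : ¬ (2 * n + 2 = 1) := by omega
      rw [a1, a2]
      simp only [v_odd, od_odd, ev_odd, v_even, ev_even, a3, a4, a5, if_false]
      push_cast
      have h2 : (6:ℂ) ^ n = 2 ^ n * 3 ^ n := by rw [← mul_pow]; norm_num
      simp only [one_div, pow_succ, inv_pow, h2]
      have h3 : (2:ℂ) ^ n ≠ 0 := pow_ne_zero _ (by norm_num)
      have h4 : (3:ℂ) ^ n ≠ 0 := pow_ne_zero _ (by norm_num)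
      field_simp
      ring
  · have a1 : 2 * n + 2 - 1 = 2 * n + 1 := by omega
    have a2 : 2 * n + 2 + 1 = 2 * (n + 1) + 1 := by ring
    have a3 : od (1 / 2) (2 * n + 2) = 0 := od_even _ (n + 1)
    have a4 : od (1 / 3) (2 * n + 2) = 0 := od_even _ (n + 1)
    have a5 : ¬ (2 * n + 2 = 1) := by omega
    rw [a1, a2, a3, a4]
    simp only [v_odd, od_odd, ev_odd, v_even, ev_even, a5, if_false]
    push_cast
    have h2 : (6:ℂ) ^ n = 2 ^ n * 3 ^ n := by rw [← mul_pow]; norm_num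
    simp only [one_div, pow_succ, inv_pow, h2]
    have h3 : (2:ℂ) ^ n ≠ 0 := pow_ne_zero _ (by norm_num)
    have h4 : (3:ℂ) ^ n ≠ 0 := pow_ne_zero _ (by norm_num)
    field_simp
    ring

theorem two_point_one (b : HilbertBasis ℕ ℂ H) :
    ⟪eta1 b, xi1 b⟫_ℂ + ⟪eta2 b, xi2 b⟫_ℂ = -1 := by
  have h1 := b.hasSum_inner_mul_inner (eta1 b) (xi1 b)
  have h2 := b.hasSum_inner_mul_inner (eta2 b) (xi2 b)
  have h3 := h1.add h2
  refine h3.unique ?_
  have e : ∀ i, ⟪eta1 b, b i⟫_ℂ * ⟪b i, xi1 b⟫_ℂ + ⟪eta2 b, b i⟫_ℂ * ⟪b i, xi2 b⟫_ℂ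
      = if i = 1 then -1 else 0 := by
    intro i
    rw [b_xi1, b_xi2, eta1_b, eta2_b]
    rcases three_cases i with rfl | ⟨n, rfl⟩ | ⟨n, rfl⟩
    · simp
    · rcases n with _ | n
      · have e3 : od (1 / 2) 1 = 1 := by simpa using od_odd (1 / 2) 0
        have e5 : ev (1 / 3) 1 = 0 := ev_odd (1 / 3) 0
        have e6 : ev (1 / 2) 1 = 0 := ev_odd (1 / 2) 0
        have e7 : 2 * 0 + 1 = 1 := rfl
        rw [e7, e3, e5, e6]
        simp
      · have a3 : ¬ (2 * (n + 1) + 1 = 1) := by omega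
        simp only [ev_odd, a3, if_false]
        simp
    · have a3 : od (1 / 2) (2 * n + 2) = 0 := od_even _ (n + 1)
      have a4 : od (1 / 3) (2 * n + 2) = 0 := od_even _ (n + 1)
      have a5 : ¬ (2 * n + 2 = 1) := by omega
      rw [a3, a4]
      simp [a5]
  simp only [e]
  exact hasSum_ite_eq 1 (-1)

theorem b0_xi1 (b : HilbertBasis ℕ ℂ H) : ⟪b 0, xi1 b⟫_ℂ = 0 := by
  rw [b_xi1]; exact od_even _ 0
theorem b0_xi2 (b : HilbertBasis ℕ ℂ H) : ⟪b 0, xi2 b⟫_ℂ = 0 := by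
  rw [b_xi2]; exact od_even _ 0

end Pool.Agent.H728R2
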